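import Pool.Agent.helper57.PP.Spec

/-!
# Project pp, row LCN: the double cover is connected
-/

set_option autoImplicit false

namespace Pool.Agent.helper57.PP

open Finset

private lemma LCN_z2 (a : ZMod 2) : a + a = 0 := by
  revert a
  decide

private lemma LCN_dich (a b : ZMod 2) : a = b ∨ a = b + 1 := by
  revert a b
  decide

section

variable {V : Type} [Fintype V] [DecidableEq V] {F : Finset (Finset V)} {w : Finset V → ZMod 2}

private lemma LCN_lift
    (hadj : ∀ x y : V × ZMod 2, (gr (edges (lift F w))).Adj x y ↔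
      x.1 ≠ y.1 ∧ {x.1, y.1} ∈ edges F ∧ x.2 + y.2 = w {x.1, y.1})
    {u v : V} (p : (gr (edges F)).Walk u v) :
    ∀ g : ZMod 2, ∃ g' : ZMod 2, (gr (edges (lift F w))).Reachable (u, g) (v, g') := by
  induction p with
  | nil => exact fun g => ⟨g, SimpleGraph.Reachable.refl _⟩
  | @cons a b c h p ih =>
    intro g
    obtain ⟨g', hg'⟩ := ih (g + w {a, b})
    refine ⟨g', SimpleGraph.Reachable.trans (SimpleGraph.Adj.reachable ?_) hg'⟩
    rw [hadj]
    refine ⟨h.1, h.2, ?_⟩
    simp only
    rw [← add_assoc, LCN_z2, zero_add]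

private lemma LCN_sg
    (hadj : ∀ x y : V × ZMod 2, (gr (edges (lift F w))).Adj x y ↔
      x.1 ≠ y.1 ∧ {x.1, y.1} ∈ edges F ∧ x.2 + y.2 = w {x.1, y.1})
    {x y : V × ZMod 2} (p : (gr (edges (lift F w))).Walk x y) :
    (gr (edges (lift F w))).Reachable (sg x) (sg y) := by
  induction p with
  | nil => exact SimpleGraph.Reachable.refl _
  | @cons a b c h p ih =>
    refine SimpleGraph.Reachable.trans (SimpleGraph.Adj.reachable ?_) ih
    rw [hadj] at h ⊢
    refine ⟨h.1, h.2.1, ?_⟩
    unfold sg
    simp only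
    rw [← h.2.2]
    have : ∀ s t : ZMod 2, s + 1 + (t + 1) = s + t := by decide
    exact this _ _

end

/-- **LCN**. -/
theorem LCN (h1 : LED_stmt) : LCN_stmt := by
  classical
  intro V _ _ F w hF hw hconn hS
  obtain ⟨S, hSF, hev, hsum⟩ := hS
  have hadj : ∀ x y : V × ZMod 2, (gr (edges (lift F w))).Adj x y ↔
      x.1 ≠ y.1 ∧ {x.1, y.1} ∈ edges F ∧ x.2 + y.2 = w {x.1, y.1} := by
    intro x y
    have h2 := (h1 V F w hF hw).1 x y
    constructor
    · rintro ⟨_, h4⟩
      exact h2.1 h4
    · intro h4
      exact ⟨fun h => h4.1 (by rw [h]), h2.2 h4⟩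
  obtain ⟨v⟩ := hconn.nonempty
  have hlift : ∀ u g, ∃ g', (gr (edges (lift F w))).Reachable (u, g) (v, g') := by
    intro u g
    obtain ⟨p⟩ := hconn.preconnected u v
    exact LCN_lift hadj p g
  have hsg : ∀ x y, (gr (edges (lift F w))).Reachable x y →
      (gr (edges (lift F w))).Reachable (sg x) (sg y) := by
    intro x y h
    obtain ⟨p⟩ := h
    exact LCN_sg hadj p
  -- the two points over `v` are connected
  have hv : (gr (edges (lift F w))).Reachable (v, (0 : ZMod 2)) (v, 1) := by
    by_contra hno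
    have hex : ∀ u, ∃ g, (gr (edges (lift F w))).Reachable (u, g) (v, (0 : ZMod 2)) := by
      intro u
      obtain ⟨g', hg'⟩ := hlift u 0
      rcases LCN_dich g' 0 with h | h
      · rw [h] at hg'
        exact ⟨0, hg'⟩
      · refine ⟨1, ?_⟩
        have h3 := hsg _ _ hg'
        unfold sg at h3
        simp only at h3
        rw [h] at h3
        have h4 : (0 : ZMod 2) + 1 + 1 = 0 := by decide
        rw [h4, zero_add] at h3
        exact h3
    choose f hf using hex
    have hwf : ∀ x y : V, {x, y} ∈ edges F → w {x, y} = f x + f y := by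
      intro x y hxy
      have hne : x ≠ y := edges_ne hxy
      have h3 : (gr (edges (lift F w))).Adj (x, f x) (y, f x + w {x, y}) := by
        rw [hadj]
        refine ⟨hne, hxy, ?_⟩
        simp only
        rw [← add_assoc, LCN_z2, zero_add]
      have h4 : (gr (edges (lift F w))).Reachable (y, f x + w {x, y}) (v, (0 : ZMod 2)) :=
        h3.symm.reachable.trans (hf x)
      rcases LCN_dich (f x + w {x, y}) (f y) with h | h
      · have h5 : f x + (f x + w {x, y}) = f x + f y := by rw [h]
        rwa [← add_assoc, LCN_z2, zero_add] at h5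
      · exfalso
        apply hno
        rw [h] at h4
        have h5 := hsg _ _ (hf y)
        unfold sg at h5
        simp only [zero_add] at h5
        exact h4.symm.trans h5
    have h6 : ∑ e ∈ S, w e = ∑ e ∈ S, ∑ x ∈ e, f x := by
      refine sum_congr rfl fun e he => ?_
      have he2 := (mem_edges.1 (hSF he)).1
      obtain ⟨x, y, hxy, rfl⟩ := card_eq_two.1 he2
      rw [sum_pair hxy]
      exact hwf x y (hSF he)
    have h7 : ∑ e ∈ S, ∑ x ∈ e, f x = ∑ x : V, (dg S x : ZMod 2) * f x := by
      have h8 : ∀ e ∈ S, ∑ x ∈ e, f x = ∑ x : V, if x ∈ e then f x else 0 := by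
        intro e _
        rw [← sum_filter]
        congr 1
        ext x
        simp
      rw [sum_congr rfl h8, sum_comm]
      refine sum_congr rfl fun x _ => ?_
      unfold dg
      rw [← sum_filter, sum_const, nsmul_eq_mul]
    have h9 : ∑ x : V, (dg S x : ZMod 2) * f x = 0 := by
      refine sum_eq_zero fun x _ => ?_
      obtain ⟨r, hr⟩ := hev x
      rw [hr]
      push_cast
      rw [LCN_z2, zero_mul]
    rw [h6, h7, h9] at hsum
    exact absurd hsum (by decide)
  have hall : ∀ x : V × ZMod 2, (gr (edges (lift F w))).Reachable x (v, (0 : ZMod 2)) := by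
    rintro ⟨u, g⟩
    obtain ⟨g', hg'⟩ := hlift u g
    rcases LCN_dich g' 0 with h | h
    · rw [h] at hg'
      exact hg'
    · rw [h, zero_add] at hg'
      exact hg'.trans hv.symm
  have : Nonempty (V × ZMod 2) := ⟨(v, 0)⟩
  exact ⟨fun x y => (hall x).trans (hall y).symm⟩

end Pool.Agent.helper57.PP
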